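import Mathlib
import Pool.Agent.Lib.H44V.Fin

set_option autoImplicit false
open CategoryTheory

namespace Pool.Agent.Results.MP_fa772a_ag.DepthOne

universe u

/-- Let `S` be a Noetherian local ring (of any characteristic) and `I` a proper ideal of finite
projective dimension such that `depth S/I ≤ 1`, i.e. every `S/I`-regular sequence in `S/I` has
length at most one.  If the normal module `Hom(I/I², S/I)` has finite projective dimension over
`S/I`, then `I` is generated by an `S`-regular sequence. -/
theorem result :
    ∀ (S : Type u) [CommRing S] [IsNoetherianRing S] [IsLocalRing S] (I : Ideal S),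
      I ≠ ⊤ →
      (∃ n : ℕ, HasProjectiveDimensionLT (ModuleCat.of S I) n) →
      (∀ ys : List (S ⧸ I), RingTheory.Sequence.IsRegular (S ⧸ I) ys → ys.length ≤ 1) →
      (∃ n : ℕ, HasProjectiveDimensionLT
          (ModuleCat.of (S ⧸ I) (I.Cotangent →ₗ[S ⧸ I] (S ⧸ I))) n) →
      ∃ rs : List S, Ideal.span {r : S | r ∈ rs} = I ∧ RingTheory.Sequence.IsRegular S rs := by
  intro S _ _ _ I hI hpd hdepth hN
  exact Pool.Agent.Lib.H44V.Fin_depthOne I hI hpd hdepth hN

end Pool.Agent.Results.MP_fa772a_ag.DepthOne
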