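import Mathlib
import Pool.Agent.Lib.H78D.Fin

set_option autoImplicit false
open CategoryTheory

namespace Pool.Agent.Results.MP_fa772a_ag.FreeNormalField

universe u

/-- Let `S` be a Noetherian local ring which contains a field, and let `I` be a proper ideal of finite
projective dimension such that the normal module `Hom(I/I², S/I)` has finite projective dimension
over `S/I`. If the normal module is free, or if `depth S/I ≤ 2` (every `S/I`-regular sequence in
`S/I` has length at most two), then `I` is generated by an `S`-regular sequence. -/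
theorem result :
    ∀ (S : Type u) [CommRing S] [IsNoetherianRing S] [IsLocalRing S],
      (∃ (k : Type u) (_ : Field k), Nonempty (k →+* S)) →
      ∀ (I : Ideal S), I ≠ ⊤ →
      (∃ n : ℕ, HasProjectiveDimensionLT (ModuleCat.of S I) n) →
      (∃ n : ℕ, HasProjectiveDimensionLT
          (ModuleCat.of (S ⧸ I) (I.Cotangent →ₗ[S ⧸ I] (S ⧸ I))) n) →
      (Module.Free (S ⧸ I) (I.Cotangent →ₗ[S ⧸ I] (S ⧸ I)) ∨
        ∀ ys : List (S ⧸ I), RingTheory.Sequence.IsRegular (S ⧸ I) ys → ys.length ≤ 2) →
      ∃ rs : List S, Ideal.span {r : S | r ∈ rs} = I ∧ RingTheory.Sequence.IsRegular S rs := by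
  intro S _ _ _ hS I hI hpd hN h
  refine Pool.Agent.Lib.H78D.Fin_field hS I hI hpd ?_
  rcases h with h | h
  · exact Or.inl h
  · exact Or.inr ⟨h, hN⟩

end Pool.Agent.Results.MP_fa772a_ag.FreeNormalField
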