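import Mathlib
import Pool.Agent.Lib.H21V.Fin

set_option autoImplicit false
open CategoryTheory

namespace Pool.Agent.Results.MP_fa772a_ag.GradeThree

universe u

/-- Let `S` be a Noetherian local ring and `I` a proper ideal such that either `pd_S (S/I) ≤ 2`, or
`pd_S (S/I) ≤ 3` and `I` contains an `S`-regular sequence of length three (`I` is perfect of grade
three).  If the normal module `Hom(I/I², S/I)` has finite projective dimension over `S/I`, then
`I` is generated by an `S`-regular sequence. -/
theorem result :
    ∀ (S : Type u) [CommRing S] [IsNoetherianRing S] [IsLocalRing S] (I : Ideal S),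
      I ≠ ⊤ →
      (HasProjectiveDimensionLT (ModuleCat.of S (S ⧸ I)) 3 ∨
        HasProjectiveDimensionLT (ModuleCat.of S (S ⧸ I)) 4 ∧
          ∃ xs : List S, xs.length = 3 ∧ (∀ x ∈ xs, x ∈ I) ∧
            RingTheory.Sequence.IsRegular S xs) →
      (∃ n : ℕ, HasProjectiveDimensionLT
          (ModuleCat.of (S ⧸ I) (I.Cotangent →ₗ[S ⧸ I] (S ⧸ I))) n) →
      ∃ rs : List S, Ideal.span {r : S | r ∈ rs} = I ∧ RingTheory.Sequence.IsRegular S rs := by
  intro S _ _ _ I hI h hN
  exact Pool.Agent.H21V.fin_main I hI h hN

end Pool.Agent.Results.MP_fa772a_ag.GradeThree
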