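import Mathlib
import Pool.Agent.Lib.H44X.Y9
import Pool.Agent.Lib.H44X.T9

set_option autoImplicit false
open CategoryTheory

namespace Pool.Agent.Results.MP_fa772a_ag.GradedCharZero

universe u

/-- Vasconcelos' conjecture on the normal module for homogeneous ideals in characteristic zero.
Let `k` be a field of characteristic zero, `w_1, …, w_n` positive integers, `I₀` a proper ideal of
`k[x_1, …, x_n]` which is homogeneous for the grading `deg x_i = w_i`, `S` the localization of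
`k[x_1, …, x_n]` at `(x_1, …, x_n)` and `I = I₀ S`.  If the normal module `Hom(I/I², S/I)` has finite
projective dimension over `S/I`, then `I` is generated by an `S`-regular sequence. -/
theorem result :
    ∀ (k : Type u) [Field k] [CharZero k] (n : ℕ) (w : Fin n → ℕ), (∀ i, 0 < w i) →
      ∀ (I₀ : Ideal (MvPolynomial (Fin n) k)), I₀ ≠ ⊤ →
      (∀ f ∈ I₀, ∀ m : ℕ, MvPolynomial.weightedHomogeneousComponent w m f ∈ I₀) →
      ∀ (𝔫 : Ideal (MvPolynomial (Fin n) k)) [𝔫.IsPrime],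
      𝔫 = Ideal.span (Set.range (MvPolynomial.X : Fin n → MvPolynomial (Fin n) k)) →
      ∀ (S : Type u) [CommRing S] [Algebra (MvPolynomial (Fin n) k) S]
        [IsLocalization.AtPrime S 𝔫] (I : Ideal S),
      I = I₀.map (algebraMap (MvPolynomial (Fin n) k) S) →
      (∃ N : ℕ, HasProjectiveDimensionLT
          (ModuleCat.of (S ⧸ I) (I.Cotangent →ₗ[S ⧸ I] (S ⧸ I))) N) →
      ∃ rs : List S, Ideal.span {r : S | r ∈ rs} = I ∧ RingTheory.Sequence.IsRegular S rs := by
  intro k _ _ n w hw I₀ hne hI 𝔫 _ h𝔫 S _ _ _ I hIdef hN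
  rw [Pool.Agent.Lib.H44X.y9_org] at h𝔫
  subst h𝔫
  let e : Pool.Agent.Lib.H44X.SS k n ≃ₐ[MvPolynomial (Fin n) k] S :=
    IsLocalization.algEquiv (Pool.Agent.Lib.H44X.org k n).primeCompl _ _
  have h1 : I = (I₀.map (algebraMap (MvPolynomial (Fin n) k) (Pool.Agent.Lib.H44X.SS k n))).map
      (e.toRingEquiv : Pool.Agent.Lib.H44X.SS k n →+* S) := by
    rw [hIdef, Ideal.map_map]
    congr 1
    ext x
    · simp
    · simp
  obtain ⟨N, hN⟩ := hN
  have h2 := Pool.Agent.Lib.H44X.t9_pd e.toRingEquiv _ I h1 N hN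
  obtain ⟨h3, r, h4⟩ := Pool.Agent.Lib.H44X.y9_main w hw I₀ hI hne ⟨N, h2⟩
  have h5 : I ≠ ⊤ := by
    intro h
    apply h3
    rw [h1] at h
    have h6 : (1 : S) ∈ (I₀.map (algebraMap (MvPolynomial (Fin n) k)
        (Pool.Agent.Lib.H44X.SS k n))).map
        (e.toRingEquiv : Pool.Agent.Lib.H44X.SS k n →+* S) := by
      rw [h]
      exact Submodule.mem_top
    obtain ⟨x, hx, hx1⟩ := (Ideal.mem_map_of_equiv e.toRingEquiv (1 : S)).mp h6
    have h7 : x = 1 := e.toRingEquiv.injective (hx1.trans (map_one _).symm)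
    rw [Ideal.eq_top_iff_one, ← h7]
    exact hx
  exact Pool.Agent.Lib.H44V.Fin_list h5 (Pool.Agent.Lib.H44X.t9_ci e.toRingEquiv _ I h1 r h4)

end Pool.Agent.Results.MP_fa772a_ag.GradedCharZero
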